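import Pool.Agent.H.MP_19623d_co.A

set_option autoImplicit false

namespace Pool.Agent.H.MP_da03b0_gt

open Set Topology Filter Metric Function

theorem low {X : Type} [TopologicalSpace X] {C : Set X} {j : ℝ × ℝ → X} {π : X → ℝ × ℝ}
    (jc : Continuous j) (pc : Continuous π) (e : ∀ w, π (j w) = w) (h : ∀ w, ‖w‖ ≤ 1 → j w ∈ C)
    (H : ∀ 𝒰 : Finset (Set X), (∀ U ∈ 𝒰, IsOpen U) → C ⊆ ⋃₀ (↑𝒰 : Set (Set X)) →
      ∃ 𝒱 : Finset (Set X), (∀ V ∈ 𝒱, IsOpen V ∧ ∃ U ∈ 𝒰, V ∩ C ⊆ U) ∧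
        C ⊆ ⋃₀ (↑𝒱 : Set (Set X)) ∧ ∀ z ∈ C, {V | V ∈ 𝒱 ∧ z ∈ V}.ncard ≤ 1 + 1) : False := by
  classical
  let a : Fin 3 → ℝ × ℝ → ℝ := ![fun w => w.1, fun w => w.2, fun w => -w.1 - w.2]
  obtain ⟨𝒱, v1, v2, v3⟩ := H (Finset.univ.image fun i => π ⁻¹' ({w | 0 < a i w} ∪ {w | ‖w‖ < 1 / 2}))
    (Finset.forall_mem_image.2 fun i _ => ((isOpen_lt continuous_const (by
      fin_cases i
      exacts [continuous_fst, continuous_snd, continuous_fst.neg.sub continuous_snd])).union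
        (isOpen_lt continuous_norm continuous_const)).preimage pc) fun x _ => by
    simp only [Finset.coe_image, sUnion_image, Finset.coe_univ, mem_univ, iUnion_true, mem_iUnion]
    by_contra! k
    have u := not_or.1 (k 0)
    have v : ¬ 0 < (π x).2 := (not_or.1 (k 1)).1
    have w : ¬ 0 < -(π x).1 - (π x).2 := (not_or.1 (k 2)).1
    have : ¬ 0 < (π x).1 := u.1
    exact u.2 (by rw [show π x = 0 from Prod.ext (by simp; linarith) (by simp; linarith)]; simp)
  simp only [Finset.mem_image, Finset.mem_univ, true_and, exists_exists_eq_and] at v1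
  choose! o i hi using v1
  choose f f1 f2 f3 using fun n : Fin 3 => ((isOpen_biUnion (s := {V ∈ 𝒱 | i V = n})
    fun V k => o V k.1).preimage jc).exists_contDiff_support_eq (n := 0)
  have fc := fun n => (f2 n).continuous
  have f0 := fun n w => (f3 n (mem_range_self w)).1
  have k : ∀ n w, f n w ≠ 0 ↔ ∃ V ∈ 𝒱, i V = n ∧ j w ∈ V := fun n w => by
    simp [← mem_support, f1, and_assoc]
  obtain ⟨w, z⟩ := Pool.Agent.H.MP_19623d_co.noretr (fun w : ℝ × ℝ =>
    (1 - min 1 (max 0 (2 * ‖w‖ - 1))) • (f 0 w - f 2 w, f 1 w - f 2 w) +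
      min 1 (max 0 (2 * ‖w‖ - 1)) • w) (by fun_prop) fun w k => by norm_num [k]
  rcases le_total 1 ‖w‖ with b | b
  · rw [min_eq_left (le_max_of_le_right (by linarith))] at z
    norm_num [show w = 0 by simpa using z] at b
  rcases le_or_gt ‖w‖ (1 / 2) with c | c
  · rw [max_eq_left (by linarith), min_eq_right zero_le_one] at z
    simp only [sub_zero, one_smul, zero_smul, add_zero, Prod.mk_eq_zero, sub_eq_zero] at z
    obtain ⟨V, x, y⟩ := v2 (h w b)
    have : ∀ n, f n w = f 2 w := fun n => by fin_cases n; exacts [z.1, z.2, rfl]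
    choose W w1 w2 w3 using fun n => (k n w).1
      (((this n).trans (this (i V)).symm).trans_ne ((k _ w).2 ⟨V, x, rfl, y⟩))
    have := (ncard_le_ncard_of_injOn W (s := univ) (t := {V | V ∈ 𝒱 ∧ j w ∈ V})
      (fun n _ => ⟨w1 n, w3 n⟩)
      (fun m _ n _ e => by rw [← w2 m, e, w2]) (𝒱.finite_toSet.subset fun _ => And.left)).trans
      (v3 _ (h w b))
    simp [ncard_univ] at this
  · rw [max_eq_right (by linarith), min_eq_right (by linarith)] at z
    have p : ∀ n, 0 ≤ f n w * a n w := fun n => by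
      by_cases d : f n w = 0
      · simp [d]
      obtain ⟨V, x, rfl, y⟩ := (k n w).1 d
      have := hi V x ⟨y, h w b⟩
      rw [mem_preimage, e] at this
      exact mul_nonneg (f0 _ _) (this.resolve_right c.not_gt).le
    have z1 : _ + _ = (0 : ℝ) := congrArg Prod.fst z
    have z2 : _ + _ = (0 : ℝ) := congrArg Prod.snd z
    have w0 : 0 < w.1 ^ 2 + w.2 ^ 2 := by
      by_contra d
      norm_num [show w = 0 from Prod.ext (pow_eq_zero_iff two_ne_zero |>.1 (by
        linarith [sq_nonneg w.1, sq_nonneg w.2])) (pow_eq_zero_iff two_ne_zero |>.1 (by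
        linarith [sq_nonneg w.1, sq_nonneg w.2]))] at c
    have p0 : 0 ≤ f 0 w * w.1 := p 0
    have p1 : 0 ≤ f 1 w * w.2 := p 1
    have p2 : 0 ≤ f 2 w * (-w.1 - w.2) := p 2
    simp only [Prod.smul_fst, Prod.smul_snd, smul_eq_mul] at z1 z2
    exact (add_pos_of_nonneg_of_pos (mul_nonneg (sub_nonneg.2 b) (add_nonneg (add_nonneg p0 p1) p2))
      (mul_pos (sub_pos.2 c) w0)).ne' (by linear_combination w.1 / 2 * z1 + w.2 / 2 * z2)

theorem zd {X : Type} [MetricSpace X] [SecondCountableTopology X] {Z : Set X}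
    {T : Z → Fin 3 → ℝ} (t : IsInducing T) (h : ∀ y i, Irrational (T y i)) (𝒰 : Set (Set X))
    (o : ∀ U ∈ 𝒰, IsOpen U) (c : Z ⊆ ⋃₀ 𝒰) : ∃ V : Set X → Set X, (∀ U ∈ 𝒰, IsOpen (V U)) ∧
      (∀ U, V U ⊆ U) ∧ (∀ z ∈ Z, ∃ U ∈ 𝒰, z ∈ V U) ∧ ∀ z U W, z ∈ V U → z ∈ V W → U = W := by
  rcases isEmpty_or_nonempty Z with n | n
  · exact ⟨fun _ => ∅, by simp, by simp, fun z k => n.elim ⟨z, k⟩, by simp⟩
  have : ∀ y : Z, ∃ B, IsClopen B ∧ y ∈ B ∧ ∃ U ∈ 𝒰, ∀ x ∈ B, x.1 ∈ U := fun y => by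
    obtain ⟨U, u, v⟩ := c y.2
    obtain ⟨N, a, b⟩ := mem_comap.1 (t.nhds_eq_comap y ▸ continuous_subtype_val.continuousAt
      ((o U u).mem_nhds v))
    obtain ⟨ε, e, d⟩ := Metric.mem_nhds_iff.1 a
    choose p p1 p2 using fun i => exists_rat_btwn (sub_lt_self (T y i) e)
    choose q q1 q2 using fun i => exists_rat_btwn (lt_add_of_pos_right (T y i) e)
    refine ⟨T ⁻¹' pi univ fun i => Ioo (p i) (q i), ⟨?_, (isOpen_set_pi finite_univ
      fun _ _ => isOpen_Ioo).preimage t.continuous⟩, fun i _ => ⟨p2 i, q1 i⟩, U, u,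
      fun x k => b (d ((dist_pi_lt_iff e).2 fun i => abs_lt.2
        ⟨by linarith [(k i trivial).1, p1 i], by linarith [(k i trivial).2, q2 i]⟩))⟩
    convert (isClosed_set_pi (i := univ) fun i _ => isClosed_Icc (a := (p i : ℝ))
      (b := q i)).preimage t.continuous using 1
    exact subset_antisymm (fun x k i u => Ioo_subset_Icc_self (k i u)) fun x k i u =>
      ⟨(k i u).1.lt_of_ne ((h x i).ne_rat _).symm, (k i u).2.lt_of_ne ((h x i).ne_rat _)⟩
  choose B b1 b2 U b3 b4 using this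
  obtain ⟨s, s1, s2⟩ := TopologicalSpace.countable_cover_nhds fun y => (b1 y).2.mem_nhds (b2 y)
  obtain ⟨e, s3⟩ := countable_iff_exists_subset_range.1 s1
  have k : ∀ y, ∃ n, y ∈ B (e n) := fun y => by
    obtain ⟨x, u, v⟩ := mem_iUnion₂.1 (s2.ge (mem_univ y))
    obtain ⟨n, rfl⟩ := s3 u
    exact ⟨n, v⟩
  classical
  have l : IsLocallyConstant fun y => U (e (Nat.find (k y))) :=
    (IsLocallyConstant.iff_eventually_eq _).2 fun y => by
      filter_upwards [(b1 _).2.mem_nhds (Nat.find_spec (k y)), (biInter_mem (finite_Iio _)).2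
        fun m (a : m < Nat.find (k y)) => (b1 _).1.isOpen_compl.mem_nhds (Nat.find_min (k y) a)]
        with x a b
      rw [(Nat.find_eq_iff (k x)).2 ⟨a, mem_iInter₂.1 b⟩]
  refine ⟨fun W => W ∩ {x | infEDist x (Subtype.val '' {y | U (e (Nat.find (k y))) = W}) <
    infEDist x (Subtype.val '' {y | U (e (Nat.find (k y))) = W}ᶜ)}, fun W a => (o W a).inter
      (isOpen_lt continuous_infEDist continuous_infEDist), fun _ => inter_subset_left,
    fun z a => ⟨_, b3 _, b4 _ ⟨z, a⟩ (Nat.find_spec (k _)), ?_⟩, fun z V W a b => by_contra fun d =>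
      (a.2.trans_le (infEDist_anti (image_mono fun y u v => d (Eq.trans (Eq.symm v) u)))).not_gt
        (b.2.trans_le (infEDist_anti (image_mono fun y u v => d (Eq.trans (Eq.symm u) v))))⟩
  rw [mem_ofPred, infEDist_zero_of_mem (by exact ⟨⟨z, a⟩, rfl, rfl⟩), infEDist_pos_iff_notMem_closure]
  exact fun d => (l.isOpen_fiber _).isClosed_compl.closure_subset
    (closure_subtype (x := ⟨z, a⟩).2 d) rfl

theorem peano : ∃ ψ : ℝ → ℝ × ℝ, Continuous ψ ∧ (∃ M, ∀ t, ‖ψ t‖ ≤ M) ∧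
    ∀ w, ‖w‖ ≤ 1 → ∃ t, ∀ n : ℕ, ψ (t + n * (2 * Real.pi)) = w := by
  have := isCompact_iff_compactSpace.1 (isCompact_closedBall (0 : ℝ × ℝ) 1)
  have : Nonempty (closedBall (0 : ℝ × ℝ) 1) := ⟨⟨0, by simp⟩⟩
  obtain ⟨g, g1, g2⟩ := exists_nat_bool_continuous_surjective_of_compact (closedBall (0 : ℝ × ℝ) 1)
  obtain ⟨P, h⟩ := ContinuousMap.exists_restrict_eq isClosed_cantorSet
    ⟨_, continuous_subtype_val.comp (g1.comp cantorSetHomeomorphNatToBool.continuous)⟩
  obtain ⟨M, m⟩ := (isCompact_Icc (a := -1) (b := 1)).exists_bound_of_continuousOn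
    P.continuous.continuousOn
  refine ⟨fun t => P (Real.sin t), by fun_prop, ⟨M, fun t => m _ (Real.sin_mem_Icc t)⟩, fun w k => ?_⟩
  obtain ⟨c, e⟩ := (g2.comp cantorSetHomeomorphNatToBool.surjective) ⟨w, by simpa using k⟩
  have := cantorSet_subset_unitInterval c.2
  refine ⟨Real.arcsin c, fun n => ?_⟩
  simp only
  rw [Real.sin_add_nat_mul_two_pi, Real.sin_arcsin (by linarith [this.1]) this.2]
  exact (DFunLike.congr_fun h c).trans (congrArg Subtype.val e)

theorem osc : ∃ φ : ℝ → ℝ × ℝ, ContinuousOn φ {z | Irrational z} ∧ ∀ (q : ℚ) (E : Set ℝ),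
    (∀ z ∈ E, Irrational z) → closure E ∈ 𝓝 (q : ℝ) → ∃ c, ∃ r : ℝ, 0 < r ∧ ∀ w, ‖w‖ ≤ 1 →
      ∃ F, NeBot F ∧ F ≤ 𝓝[E] (q : ℝ) ∧ Tendsto φ F (𝓝 (c + r • w)) := by
  obtain ⟨ψ, c, ⟨M, m⟩, k⟩ := peano
  let f : ℚ → ℝ → ℝ × ℝ := fun q z => (1 / 2 : ℝ) ^ Encodable.encode q • ψ (z - q)⁻¹
  have s := (summable_geometric_two_encode (ι := ℚ)).mul_right M
  have b : ∀ q z, ‖f q z‖ ≤ (1 / 2) ^ Encodable.encode q * M := fun q z => by
    rw [norm_smul, Real.norm_of_nonneg (by positivity)]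
    gcongr
    exact m _
  have g : ∀ q : ℚ, ContinuousOn (fun z : ℝ => ψ (z - q)⁻¹) {(q : ℝ)}ᶜ := fun q =>
    c.comp_continuousOn (.inv₀ (by fun_prop) fun z h => sub_ne_zero.2 h)
  refine ⟨fun z => ∑' q, f q z, continuousOn_tsum (fun q => ((g q).mono (t := {z | Irrational z})
    fun z h => Irrational.ne_rat h q).fun_const_smul _) s fun q z _ => b q z, fun q E i e => ?_⟩
  have h := continuousOn_tsum (f := fun p z => if p = q then 0 else f p z) (s := insert ↑q E)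
    (fun p => by
      split_ifs with a
      exacts [continuousOn_const, ((g p).mono (insert_subset (fun h => a (Rat.cast_injective h).symm)
        fun z h => (i z h).ne_rat p)).fun_const_smul _]) s fun p z _ => by
      split_ifs
      exacts [by simpa using (norm_nonneg _).trans (b p z), b p z]
  refine ⟨_, _, pow_pos one_half_pos (Encodable.encode q), fun w hw => ⟨𝓝[E] q ⊓
    comap (fun z : ℝ => ψ (z - q)⁻¹) (𝓝 w), ?_, inf_le_left,
    (((h q (.inl rfl)).mono (subset_insert _ _)).tendsto.mono_left inf_le_left |>.add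
      ((tendsto_comap.mono_left inf_le_right).const_smul _)).congr fun z => by
        rw [(Summable.of_norm_bounded s (b · z)).tsum_eq_add_tsum_ite q, add_comm]⟩⟩
  obtain ⟨t, k⟩ := k w hw
  refine ((nhdsWithin_basis_open _ _).inf ((nhds_basis_opens w).comap _)).neBot_iff.2
    fun {U} ⟨⟨u, o⟩, v, p⟩ => ?_
  have l : Tendsto (fun n : ℕ => t + n * (2 * Real.pi)) atTop atTop :=
    tendsto_atTop_add_const_left _ _ (tendsto_natCast_atTop_atTop.atTop_mul_const Real.two_pi_pos)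
  obtain ⟨n, x, y⟩ := ((l.eventually_gt_atTop 0).and (((tendsto_const_nhds (x := (q : ℝ))).add
    l.inv_tendsto_atTop).eventually_mem (s := U.1 ∩ closure E) (by
      simpa using ⟨o.mem_nhds u, e⟩))).exists
  obtain ⟨z, a, d⟩ := mem_closure_iff.1 y.2 _ (o.inter ((g q).isOpen_inter_preimage
    isOpen_compl_singleton p)) ⟨y.1, by simpa using x.ne', by simpa [k] using v⟩
  exact ⟨z, ⟨a.1, d⟩, a.2.2⟩

end Pool.Agent.H.MP_da03b0_gt
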